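import Pool.Agent.Work.MP_495a89_gro.Interface
import Pool.Agent.Work.MP_495a89_gro.B_M3Sx
import Pool.Agent.Work.PNT70.PNT

/-! # Mertens' product over a finite set of primes of given size -/

set_option autoImplicit false

namespace Pool.V2S

open Finset Filter Pool.GRO

/-- exchange: a set of at most `π(Y)` primes -/
lemma exch (P : Finset ℕ) (Y : ℕ) (hP : ∀ p ∈ P, p.Prime) (hY : 1 ≤ Y)
    (hc : P.card ≤ (Pr 0 Y).card) : ∏ p ∈ P, (1 - 1 / (p : ℝ))⁻¹ ≤ VP Y := by
  have hone : ∀ p : ℕ, p.Prime → 1 ≤ (1 - 1 / (p : ℝ))⁻¹ := by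
    intro p hp
    have h2 : (2 : ℝ) ≤ p := by exact_mod_cast hp.two_le
    have h0 : 0 < 1 - 1 / (p : ℝ) := by
      rw [sub_pos, div_lt_one (by linarith)]; linarith
    have h1 : 1 - 1 / (p : ℝ) ≤ 1 := by
      have : 0 ≤ 1 / (p : ℝ) := by positivity
      linarith
    exact (one_le_inv₀ h0).mpr h1
  have hanti : ∀ p q : ℕ, 2 ≤ p → p ≤ q → (1 - 1 / (q : ℝ))⁻¹ ≤ (1 - 1 / (p : ℝ))⁻¹ := by
    intro p q hp hpq
    have h2 : (2 : ℝ) ≤ p := by exact_mod_cast hp
    have h3 : (p : ℝ) ≤ q := by exact_mod_cast hpq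
    have h0 : 0 < 1 - 1 / (p : ℝ) := by
      rw [sub_pos, div_lt_one (by linarith)]; linarith
    apply inv_anti₀ h0
    have : 1 / (q : ℝ) ≤ 1 / (p : ℝ) := by
      apply one_div_le_one_div_of_le (by linarith) h3
    linarith
  rcases Nat.lt_or_ge Y 2 with hY2 | hY2
  · -- Y = 1: no primes
    have h0 : (Pr 0 Y).card = 0 := by
      rw [Finset.card_eq_zero]
      unfold Pr
      rw [Finset.filter_eq_empty_iff]
      intro x hx hxp
      rw [Finset.mem_Ioc] at hx
      have := hxp.two_le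
      omega
    have : P = ∅ := by
      rw [← Finset.card_eq_zero]; omega
    rw [this]
    unfold VP
    rw [Finset.card_eq_zero.mp h0]
  · set f : ℕ → ℝ := fun p => (1 - 1 / (p : ℝ))⁻¹ with hf
    -- split
    have hsplitP : ∏ p ∈ P, f p = (∏ p ∈ P ∩ Pr 0 Y, f p) * ∏ p ∈ P \ Pr 0 Y, f p :=
      (Finset.prod_inter_mul_prod_sdiff P (Pr 0 Y) f).symm
    have hsplitV : VP Y = (∏ p ∈ Pr 0 Y ∩ P, f p) * ∏ p ∈ Pr 0 Y \ P, f p :=
      (Finset.prod_inter_mul_prod_sdiff (Pr 0 Y) P f).symm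
    rw [hsplitP, hsplitV, Finset.inter_comm]
    have hfY : 1 ≤ f Y := by
      have h2 : (2 : ℝ) ≤ Y := by exact_mod_cast hY2
      have h0 : 0 < 1 - 1 / (Y : ℝ) := by
        rw [sub_pos, div_lt_one (by linarith)]; linarith
      have h1 : 1 - 1 / (Y : ℝ) ≤ 1 := by
        have : 0 ≤ 1 / (Y : ℝ) := by positivity
        linarith
      exact (one_le_inv₀ h0).mpr h1
    have hA : ∏ p ∈ P \ Pr 0 Y, f p ≤ f Y ^ (P \ Pr 0 Y).card := by
      rw [← Finset.prod_const]
      apply Finset.prod_le_prod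
      · intro i hi
        have := hone i (hP i (Finset.mem_sdiff.mp hi).1)
        linarith
      intro p hp
      rw [Finset.mem_sdiff] at hp
      have hpp := hP p hp.1
      apply hanti Y p hY2
      by_contra hlt
      push Not at hlt
      apply hp.2
      unfold Pr
      rw [Finset.mem_filter, Finset.mem_Ioc]
      exact ⟨⟨hpp.pos, hlt.le⟩, hpp⟩
    have hB : f Y ^ (Pr 0 Y \ P).card ≤ ∏ p ∈ Pr 0 Y \ P, f p := by
      rw [← Finset.prod_const]
      apply Finset.prod_le_prod
      · intro i _; linarith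
      · intro p hp
        rw [Finset.mem_sdiff] at hp
        unfold Pr at hp
        rw [Finset.mem_filter, Finset.mem_Ioc] at hp
        exact hanti p Y hp.1.2.two_le hp.1.1.2
    have hcard : (P \ Pr 0 Y).card ≤ (Pr 0 Y \ P).card := by
      have e1 := Finset.card_sdiff_add_card_inter P (Pr 0 Y)
      have e2 := Finset.card_sdiff_add_card_inter (Pr 0 Y) P
      rw [Finset.inter_comm] at e2
      omega
    have hC : f Y ^ (P \ Pr 0 Y).card ≤ f Y ^ (Pr 0 Y \ P).card :=
      pow_le_pow_right₀ hfY hcard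
    apply mul_le_mul_of_nonneg_left (le_trans hA (le_trans hC hB))
    apply Finset.prod_nonneg
    intro p hp
    have := hone p (by
      rw [Finset.mem_inter] at hp
      unfold Pr at hp
      exact (Finset.mem_filter.mp hp.1).2)
    linarith

lemma card_Pr (Y : ℕ) : (Pr 0 Y).card = Nat.primeCounting Y := by
  rw [Nat.primeCounting, Nat.primeCounting', Nat.count_eq_card_filter_range]
  congr 1
  unfold Pr
  ext p
  simp only [Finset.mem_filter, Finset.mem_Ioc, Finset.mem_range]
  constructor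
  · rintro ⟨⟨_, h2⟩, h3⟩; exact ⟨by omega, h3⟩
  · rintro ⟨h2, h3⟩; exact ⟨⟨h3.pos, by omega⟩, h3⟩

/-- `π((1+ε) w log w) ≥ w`. -/
lemma pnt_inv (ε : ℝ) (hε : 0 < ε) : ∃ W : ℕ, ∀ w : ℕ, W ≤ w →
    (w : ℝ) ≤ Nat.primeCounting ⌊(1 + ε) * (w * Real.log w)⌋₊ := by
  have hL : Tendsto (fun w : ℕ => Real.log w) atTop atTop :=
    Real.tendsto_log_atTop.comp tendsto_natCast_atTop_atTop
  have hT : Tendsto (fun w : ℕ => (1 + ε) * ((w : ℝ) * Real.log w)) atTop atTop :=
    (tendsto_natCast_atTop_atTop.atTop_mul_atTop₀ hL).const_mul_atTop (by linarith)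
  have h1 := Pool.Agent.Work.PNT70.primeCounting_tendsto.comp hT
  have h2 : Tendsto (fun w : ℕ => Real.log ((1 + ε) * ((w : ℝ) * Real.log w)) / Real.log w)
      atTop (nhds 1) := by
    have a1 : Tendsto (fun w : ℕ => Real.log (1 + ε) / Real.log w) atTop (nhds 0) :=
      hL.const_div_atTop _
    have a2 : Tendsto (fun w : ℕ => Real.log (Real.log w) / Real.log w) atTop (nhds 0) :=
      (Real.isLittleO_log_id_atTop.tendsto_div_nhds_zero).comp hL
    have a3 := (a1.add (tendsto_const_nhds (x := (1 : ℝ)))).add a2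
    rw [zero_add, add_zero] at a3
    refine a3.congr' ?_
    filter_upwards [eventually_ge_atTop 3] with w hw
    have hwR : (3 : ℝ) ≤ w := by exact_mod_cast hw
    have hlog : 1 ≤ Real.log w := by
      rw [Real.le_log_iff_exp_le (by linarith)]
      have := Real.exp_one_lt_d9
      linarith
    have e1 : Real.log ((1 + ε) * ((w : ℝ) * Real.log w)) =
        Real.log (1 + ε) + (Real.log w + Real.log (Real.log w)) := by
      rw [Real.log_mul (by positivity) (by positivity), Real.log_mul (by positivity) (by positivity)]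
    rw [e1]
    have : Real.log w ≠ 0 := by linarith
    field_simp
    ring
  have h3 : Tendsto (fun w : ℕ => (Nat.primeCounting ⌊(1 + ε) * ((w : ℝ) * Real.log w)⌋₊ : ℝ) / w)
      atTop (nhds (1 + ε)) := by
    have h4 := (h1.div h2 one_ne_zero).mul_const (1 + ε)
    have h5 : (1 : ℝ) / 1 * (1 + ε) = 1 + ε := by ring
    rw [h5] at h4
    refine h4.congr' ?_
    filter_upwards [eventually_ge_atTop 3] with w hw
    have hwR : (3 : ℝ) ≤ w := by exact_mod_cast hw
    have hlog : 1 ≤ Real.log w := by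
      rw [Real.le_log_iff_exp_le (by linarith)]
      have := Real.exp_one_lt_d9
      linarith
    have hlt : 0 < Real.log ((1 + ε) * ((w : ℝ) * Real.log w)) := by
      apply Real.log_pos
      have q1 : (3 : ℝ) ≤ (w : ℝ) * Real.log w := by nlinarith
      have q2 : (w : ℝ) * Real.log w ≤ (1 + ε) * ((w : ℝ) * Real.log w) := by nlinarith
      linarith
    simp only [Pi.div_apply, Function.comp_apply]
    have hne : Real.log w ≠ 0 := by linarith
    have hw0 : (w : ℝ) ≠ 0 := by linarith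
    have hε0 : (1 + ε) ≠ 0 := by linarith
    have hlt0 := hlt.ne'
    generalize (Nat.primeCounting ⌊(1 + ε) * ((w : ℝ) * Real.log w)⌋₊ : ℝ) = A
    generalize Real.log ((1 + ε) * ((w : ℝ) * Real.log w)) = B at *
    field_simp
  have h6 := h3.eventually (lt_mem_nhds (show (1 : ℝ) < 1 + ε by linarith))
  obtain ⟨W, hW⟩ := eventually_atTop.mp h6
  refine ⟨max W 1, fun w hw => ?_⟩
  have h7 := hW w (le_trans (le_max_left _ _) hw)
  have hw1 : (1 : ℝ) ≤ w := by exact_mod_cast le_trans (le_max_right _ _) hw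
  rw [lt_div_iff₀ (by linarith)] at h7
  linarith

theorem MER : ∀ ε : ℝ, 0 < ε → ∃ W : ℕ, ∀ P : Finset ℕ, (∀ p ∈ P, p.Prime) → W ≤ P.card →
    ∏ p ∈ P, (1 - 1 / (p : ℝ))⁻¹ ≤ Real.exp Real.eulerMascheroniConstant *
      (Real.log (P.card * Real.log P.card) + ε) := by
  intro ε hε
  obtain ⟨W1, hW1⟩ := pnt_inv (ε / 2) (by positivity)
  obtain ⟨w0, hw0⟩ := p_M3Sx (ε / 2) (by positivity)
  refine ⟨max (max W1 w0) 3, fun P hP hW => ?_⟩
  set w := P.card with hw
  have h1 : W1 ≤ w := le_trans (le_trans (le_max_left _ _) (le_max_left _ _)) hW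
  have h2 : w0 ≤ w := le_trans (le_trans (le_max_right _ _) (le_max_left _ _)) hW
  have h3 : 3 ≤ w := le_trans (le_max_right _ _) hW
  have hwR : (3 : ℝ) ≤ w := by exact_mod_cast h3
  have hlog : 1 ≤ Real.log w := by
    rw [Real.le_log_iff_exp_le (by linarith)]
    have := Real.exp_one_lt_d9
    linarith
  set t : ℝ := (1 + ε / 2) * (w * Real.log w) with ht
  have hwl : (w : ℝ) ≤ w * Real.log w := by nlinarith
  have ht1 : (w : ℝ) ≤ t := by
    have : 0 ≤ ε / 2 * (w * Real.log w) := by positivity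
    rw [ht]; linarith
  have ht0 : 0 ≤ t := by linarith
  set Y := ⌊t⌋₊ with hY
  have hYw : w ≤ Y := Nat.le_floor ht1
  have hYt : (Y : ℝ) ≤ t := Nat.floor_le ht0
  have hcard : P.card ≤ (Pr 0 Y).card := by
    rw [card_Pr]
    exact_mod_cast hW1 w h1
  have hY0 : (0 : ℝ) < Y := by
    have : (3 : ℝ) ≤ Y := by exact_mod_cast le_trans h3 hYw
    linarith
  refine (exch P Y hP (by omega) hcard).trans ((hw0 Y (by omega)).trans ?_)
  have hlt : Real.log Y ≤ Real.log (w * Real.log w) + ε / 2 := by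
    calc Real.log Y ≤ Real.log t := Real.log_le_log hY0 hYt
      _ = Real.log (1 + ε / 2) + Real.log (w * Real.log w) := by
          rw [ht, Real.log_mul (by positivity) (by positivity)]
      _ ≤ ε / 2 + Real.log (w * Real.log w) := by
          have := Real.log_le_sub_one_of_pos (x := 1 + ε / 2) (by positivity)
          linarith
      _ = _ := by ring
  apply mul_le_mul_of_nonneg_left _ (Real.exp_pos _).le
  linarith

end Pool.V2S
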