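import Pool.Agent.Work.MP_495a89_gro.B_AUP
import Pool.Agent.Work.MP_495a89_v2s.Mer

/-! # The 2-adic form -/

set_option autoImplicit false

namespace Pool.V2S

open Finset Filter Pool.GRO

theorem sg_prod (n : ℕ) (hn : n ≠ 0) :
    ∑ d ∈ n.divisors, d = ∏ p ∈ n.primeFactors, ∑ i ∈ range (n.factorization p + 1), p ^ i := by
  have h1 := ArithmeticFunction.sigma_one_apply n
  have h2 := (ArithmeticFunction.isMultiplicative_sigma (k := 1)).multiplicative_factorization
    (ArithmeticFunction.sigma 1) hn
  rw [← h1, h2, Finsupp.prod, Nat.support_factorization]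
  refine Finset.prod_congr rfl fun p hp => ?_
  exact ArithmeticFunction.sigma_one_apply_prime_pow (Nat.prime_of_mem_primeFactors hp)

lemma geom_mod (p : ℕ) (hp : p % 2 = 1) (m : ℕ) : (∑ i ∈ range m, p ^ i) % 2 = m % 2 := by
  induction m with
  | zero => simp
  | succ m ih =>
    have h1 : p ^ m % 2 = 1 := by
      rw [Nat.pow_mod, hp]; simp
    rw [Finset.sum_range_succ]
    omega

/-- At most `v_2(n) + k + 1` primes have an odd exponent. -/
lemma two (n k : ℕ) (hn : 1 ≤ n) (hk : 1 ≤ k) (h : sg n = k * n) :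
    (n.primeFactors.filter (fun p => ¬ Even (n.factorization p))).card ≤
      n.factorization 2 + k + 1 := by
  have hn0 : n ≠ 0 := by omega
  have hk0 : k ≠ 0 := by omega
  set O := n.primeFactors.filter (fun p => ¬ Even (n.factorization p)) with hO
  have hsg : sg n = ∏ p ∈ n.primeFactors, ∑ i ∈ range (n.factorization p + 1), p ^ i :=
    sg_prod n hn0
  have hne : sg n ≠ 0 := by rw [h]; positivity
  have h1 : 2 ^ (O.erase 2).card ∣ sg n := by
    rw [hsg, ← Finset.prod_const]
    refine dvd_trans (Finset.prod_dvd_prod_of_dvd (s := O.erase 2) (fun _ => 2)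
      (fun p => ∑ i ∈ range (n.factorization p + 1), p ^ i) ?_)
      (Finset.prod_dvd_prod_of_subset _ _ _ ?_)
    · intro p hp
      rw [Finset.mem_erase, hO, Finset.mem_filter] at hp
      have hpp := Nat.prime_of_mem_primeFactors hp.2.1
      have hodd : p % 2 = 1 := by
        rcases hpp.eq_two_or_odd with h2 | h2
        · exact absurd h2 hp.1
        · exact h2
      have hm := geom_mod p hodd (n.factorization p + 1)
      have hev : ¬ (n.factorization p) % 2 = 0 := by
        intro hh; exact hp.2.2 (Nat.even_iff.mpr hh)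
      show 2 ∣ ∑ i ∈ range (n.factorization p + 1), p ^ i
      omega
    · intro p hp
      rw [Finset.mem_erase, hO, Finset.mem_filter] at hp
      exact hp.2.1
  have h2 : (O.erase 2).card ≤ (sg n).factorization 2 :=
    (Nat.prime_two.pow_dvd_iff_le_factorization hne).1 h1
  have h3 : (sg n).factorization 2 = k.factorization 2 + n.factorization 2 := by
    rw [h, Nat.factorization_mul hk0 hn0]; rfl
  have h4 : k.factorization 2 < k := Nat.factorization_lt 2 hk0
  have h5 : O.card ≤ (O.erase 2).card + 1 := by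
    have := Finset.pred_card_le_card_erase (s := O) (a := 2)
    omega
  omega

lemma prod_two (P : Finset ℕ) (hP : ∀ p ∈ P, p.Prime) :
    ∏ p ∈ P, (1 - 1 / (p : ℝ))⁻¹ ≤ 2 ^ P.card := by
  rw [← Finset.prod_const]
  apply Finset.prod_le_prod
  · intro p hp
    have h2 : (2 : ℝ) ≤ p := by exact_mod_cast (hP p hp).two_le
    have h0 : 0 ≤ 1 - 1 / (p : ℝ) := by
      rw [sub_nonneg, div_le_one (by linarith)]; linarith
    exact inv_nonneg.mpr h0
  · intro p hp
    have h2 : (2 : ℝ) ≤ p := by exact_mod_cast (hP p hp).two_le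
    have h1 : 1 / (p : ℝ) ≤ 1 / 2 := one_div_le_one_div_of_le (by norm_num) h2
    have h3 : (1 : ℝ) / 2 ≤ 1 - 1 / (p : ℝ) := by linarith
    calc (1 - 1 / (p : ℝ))⁻¹ ≤ ((1 : ℝ) / 2)⁻¹ := inv_anti₀ (by norm_num) h3
      _ = 2 := by norm_num

lemma ex_large (A : ℝ) : ∃ L0 : ℝ, ∀ L : ℝ, L0 ≤ L → A * L ^ 2 ≤ Real.exp L := by
  have h := Real.tendsto_exp_div_pow_atTop 2
  have h1 := (tendsto_atTop.mp h) A
  obtain ⟨L0, hL0⟩ := eventually_atTop.mp h1
  refine ⟨max L0 1, fun L hL => ?_⟩
  have h2 := hL0 L (le_trans (le_max_left _ _) hL)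
  have h3 : 1 ≤ L := le_trans (le_max_right _ _) hL
  rwa [le_div_iff₀ (by positivity)] at h2

theorem main : ∀ ε : ℝ, 0 < ε → ∃ K0 : ℕ, ∀ n k : ℕ, 1 ≤ n →
    ∑ d ∈ n.divisors, d = k * n → K0 ≤ k →
    (1 - ε) * Real.exp (Real.exp (-Real.eulerMascheroniConstant) * k) /
        (Real.exp (-Real.eulerMascheroniConstant) * k) ≤
      (n.factorization 2 : ℝ) +
        ((n.primeFactors.filter (fun p => Even (n.factorization p))).card : ℝ) := by
  intro ε hε
  set G : ℝ := Real.exp (-Real.eulerMascheroniConstant) with hG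
  have hG0 : 0 < G := Real.exp_pos _
  have hGG : Real.exp Real.eulerMascheroniConstant * G = 1 := by
    rw [hG, ← Real.exp_add]; simp
  obtain ⟨W, hW⟩ := MER (ε / 2) (by positivity)
  obtain ⟨L0, hL0⟩ := ex_large (6 / (ε * G))
  refine ⟨max (max (2 ^ (W + 3) + 1) ⌈(L0 + 1) / G⌉₊) 3, fun n k hn hs hk => ?_⟩
  have hk1 : 2 ^ (W + 3) + 1 ≤ k := le_trans (le_trans (le_max_left _ _) (le_max_left _ _)) hk
  have hk2 : ⌈(L0 + 1) / G⌉₊ ≤ k := le_trans (le_trans (le_max_right _ _) (le_max_left _ _)) hk
  have hk3 : 3 ≤ k := le_trans (le_max_right _ _) hk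
  have hkR : (3 : ℝ) ≤ k := by exact_mod_cast hk3
  set L : ℝ := G * k with hL
  have hL1 : L0 ≤ L := by
    have h1 : (L0 + 1) / G ≤ k := le_trans (Nat.le_ceil _) (by exact_mod_cast hk2)
    rw [div_le_iff₀ hG0] at h1
    rw [hL]; linarith
  have hLpos : 0 < L := by positivity
  have hnpos : (0 : ℝ) < n := by exact_mod_cast hn
  set P := n.primeFactors with hP
  have hPp : ∀ p ∈ P, p.Prime := fun p hp => Nat.prime_of_mem_primeFactors hp
  -- `k ≤ ∏`
  have hkprod : (k : ℝ) ≤ ∏ p ∈ P, (1 - 1 / (p : ℝ))⁻¹ := by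
    have h1 := p_AUP n hn
    have h2 : (sg n : ℝ) / n = k := by
      have : sg n = k * n := hs
      rw [this]; push_cast; field_simp
    rw [h2] at h1
    exact h1
  set w := P.card with hw
  have hWw : W + 3 ≤ w := by
    by_contra hlt
    push Not at hlt
    have h1 := le_trans hkprod (prod_two P hPp)
    have h2 : (2 : ℝ) ^ w ≤ 2 ^ (W + 3) := pow_le_pow_right₀ (by norm_num) hlt.le
    have h3 : ((2 ^ (W + 3) + 1 : ℕ) : ℝ) ≤ k := by exact_mod_cast hk1
    push_cast at h3
    linarith
  have hwR : (3 : ℝ) ≤ w := by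
    have : 3 ≤ w := by omega
    exact_mod_cast this
  have hlogw : 1 ≤ Real.log w := by
    rw [Real.le_log_iff_exp_le (by linarith)]
    have := Real.exp_one_lt_d9
    linarith
  have hM := le_trans hkprod (hW P hPp (by omega))
  have hL2 : L ≤ Real.log (w * Real.log w) + ε / 2 := by
    have h1 : G * k ≤ G * (Real.exp Real.eulerMascheroniConstant *
        (Real.log (w * Real.log w) + ε / 2)) := mul_le_mul_of_nonneg_left hM hG0.le
    have h2 : G * (Real.exp Real.eulerMascheroniConstant *
        (Real.log (w * Real.log w) + ε / 2)) = Real.log (w * Real.log w) + ε / 2 := by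
      rw [← mul_assoc, mul_comm G, hGG, one_mul]
    rw [h2] at h1
    exact h1
  have hy : (1 - ε / 2) * Real.exp L ≤ w * Real.log w := by
    have hwl : 0 < (w : ℝ) * Real.log w := by positivity
    have h1 : Real.exp L ≤ Real.exp (ε / 2) * (w * Real.log w) := by
      calc Real.exp L ≤ Real.exp (Real.log (w * Real.log w) + ε / 2) := Real.exp_le_exp.mpr hL2
        _ = w * Real.log w * Real.exp (ε / 2) := by rw [Real.exp_add, Real.exp_log hwl]
        _ = _ := by ring
    have h2 : 1 - ε / 2 ≤ Real.exp (-(ε / 2)) := by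
      have := Real.add_one_le_exp (-(ε / 2))
      linarith
    calc (1 - ε / 2) * Real.exp L ≤ Real.exp (-(ε / 2)) * Real.exp L :=
          mul_le_mul_of_nonneg_right h2 (Real.exp_pos _).le
      _ ≤ Real.exp (-(ε / 2)) * (Real.exp (ε / 2) * (w * Real.log w)) :=
          mul_le_mul_of_nonneg_left h1 (Real.exp_pos _).le
      _ = w * Real.log w := by
          rw [← mul_assoc, ← Real.exp_add]; simp
  have hw1 : (1 - ε / 2) * Real.exp L / L ≤ w := by
    rcases le_total (Real.log w) L with h | h
    · rw [div_le_iff₀ hLpos]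
      refine hy.trans ?_
      exact mul_le_mul_of_nonneg_left h (by linarith)
    · -- `w ≥ exp L`
      have h1 : Real.exp L ≤ w := by
        rw [← Real.le_log_iff_exp_le (by linarith)]; exact h
      have hLge : 1 ≤ L := by
        by_contra hlt
        push Not at hlt
        have : (k : ℝ) = L * Real.exp Real.eulerMascheroniConstant := by
          rw [hL]
          have : G * k * Real.exp Real.eulerMascheroniConstant =
            (Real.exp Real.eulerMascheroniConstant * G) * k := by ring
          rw [this, hGG, one_mul]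
        have h5 : Real.exp Real.eulerMascheroniConstant < Real.exp 1 :=
          Real.exp_lt_exp.mpr (lt_trans Real.eulerMascheroniConstant_lt_two_thirds (by norm_num))
        have h6 := Real.exp_one_lt_d9
        nlinarith [Real.exp_pos Real.eulerMascheroniConstant]
      rw [div_le_iff₀ hLpos]
      have h2 : (1 - ε / 2) * Real.exp L ≤ 1 * Real.exp L :=
        mul_le_mul_of_nonneg_right (by linarith) (Real.exp_pos _).le
      nlinarith
  -- combine
  have h2 : (P.filter (fun p => ¬ Even (n.factorization p))).card ≤ n.factorization 2 + k + 1 :=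
    two n k hn (by omega) hs
  have hsplit := Finset.card_filter_add_card_filter_not (s := P)
    (fun p => Even (n.factorization p))
  have hcount : (w : ℝ) ≤ (n.factorization 2 : ℝ) +
      ((P.filter (fun p => Even (n.factorization p))).card : ℝ) + (k + 1) := by
    have : w ≤ n.factorization 2 + (P.filter (fun p => Even (n.factorization p))).card + (k + 1) := by
      omega
    exact_mod_cast this
  have hsmall : (k : ℝ) + 1 ≤ ε / 2 * Real.exp L / L := by
    have h5 := hL0 L hL1
    rw [le_div_iff₀ hLpos]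
    have h6 : (k : ℝ) + 1 ≤ 3 * k / 2 := by linarith
    have h7 : 3 * L ^ 2 / G ≤ ε / 2 * Real.exp L := by
      have : ε / 2 * (6 / (ε * G) * L ^ 2) = 3 * L ^ 2 / G := by field_simp; ring
      rw [← this]
      exact mul_le_mul_of_nonneg_left h5 (by positivity)
    have h8 : L ^ 2 / G = k * L := by rw [hL]; field_simp
    have h9 : 3 * L ^ 2 / G = 3 * (k * L) := by rw [← h8]; ring
    have h10 : ((k : ℝ) + 1) * L ≤ 3 * k / 2 * L := mul_le_mul_of_nonneg_right h6 hLpos.le
    have h11 : 0 ≤ (k : ℝ) * L := by positivity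
    nlinarith
  have hfin : (1 - ε) * Real.exp L / L = (1 - ε / 2) * Real.exp L / L - ε / 2 * Real.exp L / L := by
    ring
  rw [hfin]
  linarith

end Pool.V2S
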